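import Mathlib
import Pool.Agent.Work.MP_172f05_al.Defs
import Pool.Agent.Work.MP_172f05_al.Hyp
import Pool.Agent.Work.MP_172f05_al.Acy
import Pool.Agent.Work.MP_172f05_al.NonEl
import Pool.Agent.Work.MP_172f05_al.NotDom

/-!
# A non-elementary acylindrical action of a hyperbolic group on a tree that is dominated by no
quasi-convex splitting
-/

namespace Pool.Agent.Results.MP_172f05_al.NoQuasiconvexDomination

open Pool.Agent.Work.MP_172f05_al

universe w

/-- There are a hyperbolic group `G` and a non-elementary acylindrical action of `G` on a tree `T`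
such that no action of `G` on a tree `T'` (in any universe) with quasi-convex edge stabilisers
dominates it: there is no `G`-equivariant surjective graph morphism `T' → T`. -/
theorem result : ∃ (G : Type) (_ : Group G), IsHyperbolicGroup G ∧
    ∃ (V : Type) (_ : MulAction G V) (T : SimpleGraph V),
      IsTreeAction G T ∧ IsAcylindrical G T ∧ IsNonElementary G T ∧
      ∀ (V' : Type w) (_ : MulAction G V') (T' : SimpleGraph V'), IsTreeAction G T' →
        (∀ u v : V', T'.Adj u v → IsQuasiconvex (edgeStabilizer G u v)) →
        ¬ Dominates G T' T :=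
  ⟨Hnn.G, inferInstance, Hyp.hyperbolic, Amal.Vx, inferInstance, Amal.Tr, Amal.isTreeAction,
    Acy.isAcylindrical, NonEl.isNonElementary, fun _ _ _ hT' hq => NotDom.not_dominated hT' hq⟩

end Pool.Agent.Results.MP_172f05_al.NoQuasiconvexDomination
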